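import Pool.Agent.H66.SYM.Stmts

/-!
# Symmetric powers and functoriality for products of general linear groups: basic lemmas
-/

namespace Pool.H66.SYM

open Filter Topology

/-! ## Monomials and weights -/

theorem mon_zero {m : ℕ} (c : Fin m → ℂ) : mon c 0 = 1 := by simp [mon]

theorem mon_add {m : ℕ} (c : Fin m → ℂ) (hc : ∀ j, c j ≠ 0) (a b : Fin m → ℤ) :
    mon c (a + b) = mon c a * mon c b := by
  simp [mon, zpow_add₀ (hc _), Finset.prod_mul_distrib]

theorem mon_neg {m : ℕ} (c : Fin m → ℂ) (a : Fin m → ℤ) : mon c (-a) = (mon c a)⁻¹ := by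
  simp [mon]

theorem mon_sub {m : ℕ} (c : Fin m → ℂ) (hc : ∀ j, c j ≠ 0) (a b : Fin m → ℤ) :
    mon c (a - b) = mon c a / mon c b := by
  rw [sub_eq_add_neg, mon_add c hc, mon_neg, div_eq_mul_inv]

theorem mon_ne {m : ℕ} (c : Fin m → ℂ) (hc : ∀ j, c j ≠ 0) (a : Fin m → ℤ) : mon c a ≠ 0 :=
  Finset.prod_ne_zero_iff.2 fun j _ => zpow_ne_zero _ (hc j)

theorem mon_pow {m : ℕ} (c : Fin m → ℂ) (a : Fin m → ℤ) (n : ℕ) :
    mon (fun j => c j ^ n) a = mon c a ^ n := by
  simp only [mon, ← Finset.prod_pow]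
  refine Finset.prod_congr rfl fun j _ => ?_
  rw [← zpow_natCast, ← zpow_natCast, ← zpow_mul, ← zpow_mul, mul_comm]

theorem mon_zpow {m : ℕ} (c : Fin m → ℂ) (a : Fin m → ℤ) (n : ℤ) :
    mon (fun j => c j ^ n) a = mon c a ^ n := by
  simp only [mon, ← Finset.prod_zpow]
  refine Finset.prod_congr rfl fun j _ => ?_
  rw [← zpow_mul, ← zpow_mul, mul_comm]

theorem mon_smul {m : ℕ} (c : Fin m → ℂ) (a : Fin m → ℤ) (n : ℤ) :
    mon c (n • a) = mon c a ^ n := by
  simp only [mon, ← Finset.prod_zpow]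
  refine Finset.prod_congr rfl fun j _ => ?_
  rw [← zpow_mul, Pi.smul_apply, smul_eq_mul, mul_comm]

theorem mon_perm {m : ℕ} (c : Fin m → ℂ) (σ : Equiv.Perm (Fin m)) (a : Fin m → ℤ) :
    mon (c ∘ σ) (a ∘ σ) = mon c a := by
  simp only [mon, Function.comp]
  exact Equiv.prod_comp σ fun j => c j ^ a j

theorem mon_comp {m : ℕ} (c : Fin m → ℂ) (σ : Equiv.Perm (Fin m)) (a : Fin m → ℤ) :
    mon (c ∘ σ) a = mon c (a ∘ σ.symm) := by
  rw [← mon_perm c σ (a ∘ σ.symm)]
  congr 1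
  ext j
  simp

theorem mon_ee {m : ℕ} (c : Fin m → ℂ) (i : Fin m) : mon c (ee i) = c i := by
  unfold mon ee
  rw [Finset.prod_eq_single i]
  · simp
  · intro j _ h
    simp [Pi.single_eq_of_ne h]
  · simp

theorem mon_norm {m : ℕ} (c : Fin m → ℂ) (hc : ∀ j, ‖c j‖ = 1) (a : Fin m → ℤ) :
    ‖mon c a‖ = 1 := by
  simp [mon, hc]

theorem Wt_zero (m H : ℕ) : (0 : Fin m → ℤ) ∈ Wt m 0 H := by
  refine ⟨by simp, by simp⟩

theorem Wt_add {m : ℕ} {d d' : ℤ} {H H' : ℕ} {a b : Fin m → ℤ} (ha : a ∈ Wt m d H)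
    (hb : b ∈ Wt m d' H') : a + b ∈ Wt m (d + d') (H + H') := by
  refine ⟨by simp [Finset.sum_add_distrib, ha.1, hb.1], ?_⟩
  calc ∑ j, |(a + b) j| ≤ ∑ j, (|a j| + |b j|) := Finset.sum_le_sum fun j _ => abs_add_le _ _
    _ ≤ ((H + H' : ℕ) : ℤ) := by
      rw [Finset.sum_add_distrib]
      push_cast
      exact add_le_add ha.2 hb.2

theorem Wt_neg {m : ℕ} {d : ℤ} {H : ℕ} {a : Fin m → ℤ} (ha : a ∈ Wt m d H) :
    -a ∈ Wt m (-d) H := by
  refine ⟨by simp [ha.1], by simpa using ha.2⟩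

theorem Wt_sub {m : ℕ} {d d' : ℤ} {H H' : ℕ} {a b : Fin m → ℤ} (ha : a ∈ Wt m d H)
    (hb : b ∈ Wt m d' H') : a - b ∈ Wt m (d - d') (H + H') := by
  rw [sub_eq_add_neg, sub_eq_add_neg]
  exact Wt_add ha (Wt_neg hb)

theorem Wt_mono {m : ℕ} {d : ℤ} {H H' : ℕ} (h : H ≤ H') : Wt m d H ⊆ Wt m d H' :=
  fun _ ha => ⟨ha.1, ha.2.trans (by exact_mod_cast h)⟩

theorem Wt_comp {m : ℕ} {d : ℤ} {H : ℕ} {a : Fin m → ℤ} (ha : a ∈ Wt m d H)
    (σ : Equiv.Perm (Fin m)) : a ∘ σ ∈ Wt m d H := by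
  refine ⟨?_, ?_⟩
  · rw [← ha.1]
    exact Equiv.sum_comp σ a
  · refine le_trans (le_of_eq ?_) ha.2
    exact Equiv.sum_comp σ fun j => |a j|

theorem Wt_smul {m : ℕ} {d : ℤ} {H : ℕ} {a : Fin m → ℤ} (ha : a ∈ Wt m d H) (n : ℕ) :
    (n : ℤ) • a ∈ Wt m (n * d) (n * H) := by
  refine ⟨by simp [← Finset.mul_sum, ha.1], ?_⟩
  simp only [Pi.smul_apply, smul_eq_mul, abs_mul, Nat.abs_cast, ← Finset.mul_sum]
  push_cast
  exact mul_le_mul_of_nonneg_left ha.2 (by positivity)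

theorem Wt_ee {m : ℕ} (i : Fin m) : ee i ∈ Wt m 1 1 := by
  constructor
  · simp [ee]
  · rw [Finset.sum_eq_single i]
    · simp [ee]
    · intro j _ h
      simp [ee, Pi.single_eq_of_ne h]
    · simp

theorem Wt_finite (m : ℕ) (d : ℤ) (H : ℕ) : (Wt m d H).Finite := by
  refine Set.Finite.subset (Set.finite_Icc (fun _ => -(H : ℤ)) (fun _ => (H : ℤ))) ?_
  intro a ha
  have h : ∀ j, |a j| ≤ (H : ℤ) := fun j =>
    (Finset.single_le_sum (f := fun j => |a j|) (fun i _ => abs_nonneg _)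
      (Finset.mem_univ j)).trans ha.2
  exact ⟨fun j => (abs_le.1 (h j)).1, fun j => (abs_le.1 (h j)).2⟩

/-- Different weights of height at most `H` have different values at a point in general
position. -/
theorem mon_inj {m : ℕ} {c : Fin m → ℂ} (hc : ∀ j, c j ≠ 0) {d : ℤ} {H : ℕ}
    (hg : Gen (2 * H) c) {a b : Fin m → ℤ} (ha : a ∈ Wt m d H) (hb : b ∈ Wt m d H)
    (h : mon c a = mon c b) : a = b := by
  by_contra hab
  have h1 := Wt_sub ha hb
  refine hg (a - b) (sub_ne_zero.2 hab) (by rw [h1.1, sub_self]) ?_ ?_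
  · have := h1.2
    push_cast at this ⊢
    linarith
  · have h2 : mon c (a - b) = 1 := by
      rw [mon_sub c hc, h, div_self (mon_ne c hc b)]
    exact h2

theorem Gen.mono {m M M' : ℕ} {c : Fin m → ℂ} (h : Gen M c) (hM : M' ≤ M) : Gen M' c :=
  fun a h1 h2 h3 => h a h1 h2 (h3.trans (by exact_mod_cast hM))

/-! ## `ev` -/

theorem ev_pow {m : ℕ} (φ : (Fin m → ℤ) →₀ ℤ) (c : Fin m → ℂ) (n : ℕ) :
    ev φ (fun j => c j ^ n) = φ.sum fun a k => (k : ℂ) * mon c a ^ n := by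
  simp only [ev, mon_pow]

theorem ev_zero {m : ℕ} (c : Fin m → ℂ) : ev 0 c = 0 := by simp [ev]

theorem ev_single {m : ℕ} (a : Fin m → ℤ) (k : ℤ) (c : Fin m → ℂ) :
    ev (Finsupp.single a k) c = k * mon c a := by
  simp [ev]

theorem ev_add {m : ℕ} (φ ψ : (Fin m → ℤ) →₀ ℤ) (c : Fin m → ℂ) :
    ev (φ + ψ) c = ev φ c + ev ψ c := by
  unfold ev
  rw [Finsupp.sum_add_index']
  · simp
  · intro a k l
    push_cast
    ring

theorem ev_sum {m : ℕ} {ι : Type*} (s : Finset ι) (φ : ι → (Fin m → ℤ) →₀ ℤ) (c : Fin m → ℂ) :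
    ev (∑ i ∈ s, φ i) c = ∑ i ∈ s, ev (φ i) c := by
  classical
  induction s using Finset.induction_on with
  | empty => simp [ev_zero]
  | insert i s hi ih => rw [Finset.sum_insert hi, Finset.sum_insert hi, ev_add, ih]

/-! ## Isobaric representations -/

variable (A : AData)

theorem eigs_zero (p : A.Pt) : A.eigs 0 p = 0 := by simp [AData.eigs]

theorem eigs_add (P Q : Multiset A.Cusp) (p : A.Pt) :
    A.eigs (P + Q) p = A.eigs P p + A.eigs Q p := by
  simp [AData.eigs]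

theorem eigs_cons (σ : A.Cusp) (P : Multiset A.Cusp) (p : A.Pt) :
    A.eigs (σ ::ₘ P) p = A.eig σ p + A.eigs P p := by
  simp [AData.eigs]

theorem eigs_singleton (σ : A.Cusp) (p : A.Pt) : A.eigs {σ} p = A.eig σ p := by
  simp [AData.eigs]

theorem mem_eigs {P : Multiset A.Cusp} {p : A.Pt} {e : ℂ} :
    e ∈ A.eigs P p ↔ ∃ σ ∈ P, e ∈ A.eig σ p := by
  induction P using Multiset.induction_on with
  | empty => simp [AData.eigs]
  | cons σ P ih => rw [eigs_cons, Multiset.mem_add, ih]; simp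

theorem sum_eigs (P : Multiset A.Cusp) (p : A.Pt) :
    (A.eigs P p).sum = (P.map fun z => A.tr z p).sum := by
  induction P using Multiset.induction_on with
  | empty => simp [AData.eigs]
  | cons σ P ih => rw [eigs_cons, Multiset.sum_add, ih]; simp [AData.tr]

/-- Orderings of multisets. -/
theorem exists_fin_map (X : Multiset ℂ) : ∃ c : Fin X.card → ℂ, X = Finset.univ.val.map c := by
  obtain ⟨l, rfl⟩ : ∃ l : List ℂ, X = l := ⟨X.toList, (Multiset.coe_toList X).symm⟩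
  refine ⟨fun j => l.get (j.cast (Multiset.coe_card l)), ?_⟩
  have h : (List.ofFn l.get : Multiset ℂ) = Finset.univ.val.map l.get := by
    rw [Fin.univ_val_map]
  rw [List.ofFn_get] at h
  exact h

/-- Orderings exist. -/
theorem exists_ord {m : ℕ} {τ : A.Cusp} {p : A.Pt} (h : (A.eig τ p).card = m) :
    ∃ c : Fin m → ℂ, A.Ord τ p c := by
  subst h
  exact exists_fin_map _

/-- Elements of the closure of a set of traces. -/
theorem mem_closure_tr {S : Set A.Cusp} {F : A.Pt → ℂ} :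
    F ∈ AddSubgroup.closure (A.tr '' S) ↔
      ∃ k : A.Cusp →₀ ℤ, (∀ z ∈ k.support, z ∈ S) ∧
        F = fun p => k.sum fun z n => (n : ℂ) * A.tr z p := by
  classical
  constructor
  · intro h
    refine AddSubgroup.closure_induction (p := fun F _ => ∃ k : A.Cusp →₀ ℤ,
      (∀ z ∈ k.support, z ∈ S) ∧ F = fun p => k.sum fun z n => (n : ℂ) * A.tr z p)
      ?_ ?_ ?_ ?_ h
    · rintro _ ⟨z, hz, rfl⟩
      refine ⟨Finsupp.single z 1, ?_, ?_⟩
      · intro w hw
        have := Finsupp.support_single_subset hw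
        rw [Finset.mem_singleton] at this
        rwa [this]
      · ext p
        simp
    · exact ⟨0, by simp, by ext p; simp⟩
    · rintro _ _ _ _ ⟨k, hk, rfl⟩ ⟨l, hl, rfl⟩
      refine ⟨k + l, ?_, ?_⟩
      · intro z hz
        rcases Finset.mem_union.1 (Finsupp.support_add hz) with h | h
        exacts [hk z h, hl z h]
      · ext p
        simp only [Pi.add_apply]
        rw [Finsupp.sum_add_index']
        · simp
        · intro a k l
          push_cast
          ring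
    · rintro _ _ ⟨k, hk, rfl⟩
      refine ⟨-k, ?_, ?_⟩
      · intro z hz
        exact hk z (by simpa using hz)
      · ext p
        simp only [Pi.neg_apply]
        rw [Finsupp.sum_neg_index (by simp)]
        simp [Finsupp.sum]
  · rintro ⟨k, hk, rfl⟩
    have : (fun p => k.sum fun z n => (n : ℂ) * A.tr z p) = ∑ z ∈ k.support, k z • A.tr z := by
      ext p
      simp [Finsupp.sum, Finset.sum_apply]
    rw [this]
    refine AddSubgroup.sum_mem _ fun z hz => AddSubgroup.zsmul_mem _ ?_ _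
    exact AddSubgroup.subset_closure (Set.mem_image_of_mem _ (hk z hz))

end Pool.H66.SYM
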